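import Pool.Agent.J6H84.LM.Stm

set_option autoImplicit false

namespace Pool.Agent.J6H84.LM

theorem cor : S_Cor := by
  classical
  intro K _ _ m k C hC φ h
  choose a ha using h
  refine ⟨a, fun f hf hdet => ?_⟩
  obtain ⟨v, hv, hv'⟩ := Matrix.exists_mulVec_eq_zero_iff.2 hdet
  apply hv
  have h1 : φ.symm v = φ.symm 0 := by
    refine (hC f hf).1 ?_
    funext l
    refine ha (f l) _ _ ?_
    have h2 := congrFun hv' l
    simp only [Matrix.mulVec, dotProduct, Matrix.of_apply, Pi.zero_apply] at h2
    simp only [Equiv.apply_symm_apply, Pi.zero_apply, mul_zero, Finset.sum_const_zero]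
    exact h2
  exact φ.symm.injective h1

end Pool.Agent.J6H84.LM
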