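import Pool.Agent.J6H24.LM.LineP
import Pool.Agent.J6H3.LM.LineQ
import Pool.Agent.J6H68.LM.Plane
import Pool.Agent.J6H92.LM.Global
import Pool.Agent.J6H10.LM.Coord
import Pool.Agent.J6H31.LM.Main
import Pool.Agent.J6H10.LM.Sq
import Pool.Agent.J6H84.LM.Cor
import Pool.Agent.J6H34.LM.Sharp

/-! # The modules of project LM -/

namespace Pool.Agent.J6H84.LM

theorem lineP : S_LineP := Pool.Agent.J6H24.LM.main

theorem lineQ : S_LineQ := Pool.Agent.J6H3.LM.LineQ.main

theorem plane : S_Plane := Pool.Agent.J6H68.LM.Plane.main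

theorem global : S_Global := Pool.Agent.J6H92.LM.main

theorem coord : S_Coord := Pool.Agent.J6H10.LM.main

theorem main : S_Main := Pool.Agent.J6H31.LM.main

theorem sharp : S_Sharp := Pool.Agent.J6H34.LM.main

theorem sq : S_Sq := Pool.Agent.J6H10.LM.Squares.main

end Pool.Agent.J6H84.LM
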