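import Pool.Agent.J6H84.LM.All
import Pool.Agent.Y347.VL.Upper

/-!
# Project LM: the final step
-/

set_option autoImplicit false

namespace Pool.Agent.J6H84.LM

open Finset Pool.Agent.H430R2.PermCubes

theorem lineProp {K : Type} [Field K] [Fintype K] {N : ℕ}
    (h : ((Fintype.card K).Prime ∧ Fintype.card K + 1 ≤ 2 * N) ∨
      (1 ≤ N ∧ (Fintype.card K - N) ^ 2 < Fintype.card K)) : LineProp K N := by
  have hQ : 1 ≤ N → (Fintype.card K - N) ^ 2 < Fintype.card K → LineProp K N := lineQ K N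
  rcases h with ⟨hp, hN⟩ | ⟨h1, h2⟩
  · by_cases h2 : Fintype.card K = 2
    · refine hQ (by omega) ?_
      have h3 : Fintype.card K - N = 0 := by omega
      rw [h3, h2]
      norm_num
    · have h3 := lineP K hp h2
      intro ι _ f hf
      exact h3 ι f (by omega)
  · exact hQ h1 h2

theorem all_linear {K : Type} [Field K] [Fintype K] {m k : ℕ} (hm : 2 ≤ m)
    {C : Fin k → (Fin m → Fin (Fintype.card K)) → Fin (Fintype.card K)}
    (hC : IsArray m (Fintype.card K) k C) (φ : (Fin m → Fin (Fintype.card K)) ≃ (Fin m → K))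
    (R : Finset (Fin k)) (hR : ∀ i ∈ R, LinIn φ (C i)) (hmR : m ≤ R.card)
    (h : ((Fintype.card K).Prime ∧ Fintype.card K + 1 ≤ 2 * (R.card + 2 - m)) ∨
      (Fintype.card K - (R.card + 2 - m)) ^ 2 < Fintype.card K) : ∀ i, LinIn φ (C i) := by
  obtain ⟨T, hTR, hT⟩ := Finset.exists_subset_card_eq hmR
  let e : Fin m → Fin k := fun j => ((T.equivFinOfCardEq hT).symm j).1
  have he : Function.Injective e := fun i j hij =>
    (T.equivFinOfCardEq hT).symm.injective (Subtype.ext hij)
  have heR : ∀ j, e j ∈ R := fun j => hTR ((T.equivFinOfCardEq hT).symm j).2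
  obtain ⟨ψ, h1, h2⟩ := coord K m k C hC φ e he (fun j => hR _ (heR j))
  have hL : LineProp K (R.card + 2 - m) := lineProp (by
    rcases h with h | h
    · exact Or.inl h
    · exact Or.inr ⟨by omega, h⟩)
  intro i
  rw [h1]
  exact main plane global K m k (R.card + 2 - m) C hm hC ψ e he h2 hL (by omega) R heR
    (fun i hi => (h1 _).1 (hR i hi)) (by omega) i

theorem card_le {K : Type} [Field K] [Fintype K] {m k : ℕ} (hm : 3 ≤ m)
    (hmq : m ≤ Fintype.card K) (hodd : Fintype.card K % 2 = 1)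
    (hr : Pool.Agent.Y347.VL.InRange (Fintype.card K).minFac (Fintype.card K) m)
    {C : Fin k → (Fin m → Fin (Fintype.card K)) → Fin (Fintype.card K)}
    (hC : IsArray m (Fintype.card K) k C) (φ : (Fin m → Fin (Fintype.card K)) ≃ (Fin m → K))
    (h : ∀ i, LinIn φ (C i)) : k ≤ Fintype.card K + 1 := by
  obtain ⟨a, ha⟩ := cor K m k C hC φ h
  obtain ⟨p, hp⟩ := CharP.exists K
  obtain ⟨n, hpp', hn⟩ := FiniteField.card K p
  have hmf : (Fintype.card K).minFac = p := by
    rw [hn]; exact hpp'.pow_minFac n.pos.ne'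
  rw [hmf] at hr
  have hp3 : 3 ≤ p := by
    rcases Nat.lt_or_ge p 3 with h | h
    · have : p = 2 := by have := hpp'.two_le; omega
      subst this
      have h2 : 2 ∣ Fintype.card K := by
        rw [hn]; exact dvd_pow_self 2 n.pos.ne'
      omega
    · exact h
  exact Pool.Agent.Y347.VL.upper_odd hp3 hm hmq hr a ha

end Pool.Agent.J6H84.LM
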