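import Pool.Agent.H430R2.PermCubes.Upper
import Pool.Agent.TH784.SD.Sid

/-!
# Project LM (hard problem MP_c7a479_co): variational sets with many linear members

Aim: let `K` be a field with `q` elements and `C_1, ..., C_k` a variational set of `m`-dimensional cubes
of order `q`.  If in some coordinates `φ : cells → K^m` at least `m - 2 + N` (and at least `m`) members
depend only on a linear form, where `N = (q + 1) / 2` if `q` is an odd prime and `N > q - √q` otherwise, then
ALL members depend only on a linear form (in the same coordinates), hence `k ≤ q + 1`.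

Modules: `S_LineP`, `S_LineQ`, `S_Plane`, `S_Global`, `S_Coord`, `S_Main`, `S_Cor`; complete proofs below.
-/

set_option autoImplicit false

namespace Pool.Agent.J6H84.LM

open Finset Pool.Agent.H430R2.PermCubes

/-- the value of the linear form `w` at `z` -/
def dot {K : Type} [Field K] (w z : K × K) : K := w.1 * z.1 + w.2 * z.2

/-- A set of `|K|` points of the plane on which `N` pairwise non-proportional linear forms are injective
lies on a line. -/
def LineProp (K : Type) [Field K] [Fintype K] (N : ℕ) : Prop :=
  ∀ (ι : Type) [Fintype ι] (f : ι → K × K), N ≤ Fintype.card ι →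
    (∀ i j, i ≠ j → (f i).1 * (f j).2 ≠ (f i).2 * (f j).1) →
    ∀ U : Finset (K × K), U.card = Fintype.card K →
      (∀ i, ∀ z ∈ U, ∀ z' ∈ U, dot (f i) z = dot (f i) z' → z = z') →
      ∃ w : K × K, w ≠ 0 ∧ ∀ z ∈ U, ∀ z' ∈ U, dot w z = dot w z'

/-- **Module LINEP** (Rédei, Lovász and Schrijver; prime order).

Proof.  By a ring isomorphism (`ZMod.ringEquivOfPrime`) let `K = ZMod p`, `p` odd.  Let `U`, `f` be as in
`LineProp` with at least `N = (p + 1) / 2` forms.  (The forms `f i` are not `0` since `|U| ≥ 2`.)  For
`1 ≤ k` with `2 k ≤ p - 1` (so `k < N`) we have `mom U (f i) k = ∑ z ∈ U, (lf (f i) z) ^ k = ∑ c, c ^ k = 0`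
(`f i` is injective, so bijective from `U` to `ZMod p`; `FiniteField.sum_pow_lt_card_sub_one`; `k < p - 1`).
The same holds for the nonzero multiples `c • f i`.  These are `N (p - 1)` different `w ≠ 0`, so by
`Pool.Agent.TH784.SD.zeros` (contrapositive: otherwise `N (p - 1) ≤ k (p - 1)`), `mom U w k = 0` for all `w`.
By `Pool.Agent.TH784.SD.lac` (applied to `ι = U`, `f z = lf w z`) every `w` is injective or constant on `U`.  Let
`z ≠ z'` be in `U` and `w = (z'.2 - z.2, z.1 - z'.1) ≠ 0`; then `dot w z = dot w z'`, so `w` is not injective, so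
it is constant on `U`. -/
def S_LineP : Prop := ∀ (K : Type) [Field K] [Fintype K], (Fintype.card K).Prime →
  Fintype.card K ≠ 2 → LineProp K ((Fintype.card K + 1) / 2)

/-- **Module LINEQ** (every finite field; Bruen's argument).  Here `-` is truncated.

Proof.  Let `q = |K|` and let `U`, `f` be as in `LineProp`, `N' = card ι ≥ N` the number of the forms.
Let `r : Option K → K × K`, `none ↦ (0, 1)`, `some x ↦ (1, x)`; every nonzero form is proportional to
exactly one of these `q + 1` forms.  Two different points agree in exactly one of the `r x`.  (The forms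
`f i` are nonzero as `|U| = q ≥ 2`.)  For the classes `x` of the `f i` (`N'` different classes) the form
`r x` is injective, hence bijective from `U` to `K`.  Suppose that `U` is not contained in a line, that
is, no `r x` is constant on `U`.
(1) For a point `P ∈ U`: the other `q - 1` points of `U` are distributed over the classes: the class of `z` is
the unique `x` with `dot (r x) z = dot (r x) P`.  The classes of the `f i` get none.  So `N' ≤ q`, and some class
`x` of the other `D = q + 1 - N'` classes gets at least `(q - 1) / D`, that is `D (t - 1) ≥ q - 1` where `t ≥ 2`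
is the number of `z ∈ U` with `dot (r x) z = dot (r x) P`.
(2) The line `ℓ = {z | dot (r x) z = dot (r x) P}` has `q` points and `U` is not contained in `ℓ`, `|U| = q`, so
there is a point `Q ∈ ℓ` outside of `U`.  Every `z ∈ U` agrees with `Q` in exactly one class; the class `x` gets
`t`, each of the `N'` classes of the `f i` (different from `x` as `t ≥ 2`) exactly one (bijective).  So
`q ≥ N' + t`, `t ≤ D - 1`.
(3) `q - 1 ≤ D (t - 1) ≤ D (D - 2)`, so `(D - 1)² ≥ q`, `(q - N')² ≥ q`, so `(q - N)² ≥ q`: contradiction. -/
def S_LineQ : Prop := ∀ (K : Type) [Field K] [Fintype K] (N : ℕ), 1 ≤ N →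
  (Fintype.card K - N) ^ 2 < Fintype.card K → LineProp K N

/-- **Module PLANE.**

Proof.  Let `q = |K| = |X|`.  For `x : X` let `U_x = {z | F z = x}`.  The form `f i` (any `i`) is injective
on `U_x`, so `|U_x| ≤ q`; the sum of the `|U_x|` is `q²`, so `|U_x| = q` for all `x`.  By `LineProp` there
is `w_x ≠ 0` which is constant on `U_x`; the line `{z | dot w_x z = c_x}` has `q` points (`w_x ≠ 0`), so it
is equal to `U_x`.  For `x ≠ x'` the lines `U_x`, `U_x'` are disjoint, so `w_x`, `w_x'` are proportional
(otherwise the lines meet: solve two linear equations).  Let `w = w_{x₀}` for some `x₀` (`X` is nonempty).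
If `dot w z = dot w z'` then with `x = F z` also `dot w_x z = dot w_x z'`, so `z' ∈ U_x`, `F z' = F z`. -/
def S_Plane : Prop := ∀ (K : Type) [Field K] [Fintype K] (N : ℕ), LineProp K N →
  ∀ (X : Type) [Fintype X], Fintype.card X = Fintype.card K →
  ∀ (ι : Type) [Fintype ι] (f : ι → K × K), N ≤ Fintype.card ι → 1 ≤ Fintype.card ι →
    (∀ i j, i ≠ j → (f i).1 * (f j).2 ≠ (f i).2 * (f j).1) →
    ∀ F : K × K → X, (∀ i z z', dot (f i) z = dot (f i) z' → F z = F z' → z = z') →
      ∃ w : K × K, w ≠ 0 ∧ ∀ z z', dot w z = dot w z' → F z = F z'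

/-- **Module GLOBAL.**  A function on `K^m` which is injective in every variable and which in the planes
parallel to the coordinate planes with the directions `i0`, `j` depends only on a linear form depends only
on a linear form.

Proof.  Let `h s = F (update 0 i0 s)`, a bijection `K → X` (`ha`, `hc`), and `f y = h⁻¹ (F y)`, so
`f (update 0 i0 s) = s`; `f` has the properties `ha`, `hb` too.
(A) Let `j ≠ i0` and let `y` be such that `f (update y i0 s) = s + c` for all `s`.  Then there is `β ≠ 0` with
`f (update (update y i0 s) j t) = s + β (t - y j) + c` for all `s`, `t`.  Proof: let `w` be as in `hb` for `j`,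
`y`.  `w.1 ≠ 0`, since otherwise `f (update (update y i0 s) j t)` would not depend on `s` (use
`Function.update_comm`), against `ha`; `w.2 ≠ 0` in the same way.  `β = w.2 / w.1`: for `s`, `t` the point
`s' = s + β (t - y j)`, `t' = y j` has the same value of `w`, and `update (update y i0 s') j (y j) = update y i0 s'`.
(B) For all `y` there is `c` with `f (update y i0 s) = s + c` for all `s`: induction over a finset `T` of indices
with `i0 ∉ T` for all `y` which vanish outside `T ∪ {i0}`; start: `update y i0 s = update 0 i0 s`, `c = 0`;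
step: `T ∪ {j}`, `y = update y' j t` with `y' = update y j 0`, use (A) for `y'`.
(C) Put `c y = f (update y i0 0)`, so `f (update y i0 s) = s + c y`, `f y = y i0 + c y`,
`c (update y i0 s) = c y`.  By (A): for `j ≠ i0` there is `b j y ≠ 0` with
`c (update y j t) = c y + b j y * (t - y j)` for all `t`; so `b j y = c (update y j (y j + 1)) - c y`.
(D) `b j (update y j t) = b j y` and `b j (update y i0 s) = b j y`.  For `i ≠ j`, both `≠ i0`:
`b j (update y i s) = b j y`.  Proof: let `φ s t = c (update (update y i s) j t)`; for fixed `s` it is affine in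
`t` with slope `B s = φ s 1 - φ s 0 = b j (update y i s) ≠ 0`, for fixed `t` it is affine in `s` with slope
`A t`.  So `B s = B 0 + s (A 1 - A 0)`.  If `A 1 ≠ A 0` then `B s = 0` for `s = - B 0 / (A 1 - A 0)`,
contradiction.  So `B` is constant.
(E) So `b j y = b j 0 =: a j` for all `y` (change the coordinates one after the other), put `a i0 = 1`;
then `f y = ∑ a j * y j` (again change the coordinates one after the other starting from `0`, `f 0 = 0`).
So `F y = h (∑ a j * y j)`. -/
def S_Global : Prop := ∀ (K : Type) [Field K] (X : Type) (m : ℕ) (i0 : Fin m)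
  (F : (Fin m → K) → X),
  (∀ j y s t, F (Function.update y j s) = F (Function.update y j t) → s = t) →
  (∀ j, j ≠ i0 → ∀ y, ∃ w : K × K, w ≠ 0 ∧ ∀ s t s' t', w.1 * s + w.2 * t = w.1 * s' + w.2 * t' →
    F (Function.update (Function.update y i0 s) j t) =
      F (Function.update (Function.update y i0 s') j t')) →
  (∀ y x, ∃ s, F (Function.update y i0 s) = x) →
  ∃ a : Fin m → K, ∀ y y', ∑ i, a i * y i = ∑ i, a i * y' i → F y = F y'

/-- In the coordinates `φ` the cube `D` depends only on the value of a linear form. -/
def LinIn {K : Type} [Field K] {m n : ℕ} (φ : (Fin m → Fin n) ≃ (Fin m → K))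
    (D : (Fin m → Fin n) → Fin n) : Prop :=
  ∃ a : Fin m → K, ∀ x y, ∑ i, a i * φ x i = ∑ i, a i * φ y i → D x = D y

/-- **Module COORD**: coordinates in which `m` given members are coordinate functions.

Proof.  Let `n = |K|` and `a j` the coefficients for `C (e j)`, `A v = (fun j => ∑ i, a j i * v i)`, a linear map
`K^m → K^m`.  It is injective: if `A v = 0` then for `x = φ⁻¹ v`, `y = φ⁻¹ 0` all `C (e j) x = C (e j) y`, so
`x = y` by `IsArray` (`(hC e he).1`), `v = 0`.  So `A` is a linear equivalence and `ψ = φ.trans A`.
`LinIn φ D ↔ LinIn ψ D`: a linear form in `φ x` is a linear form in `ψ x` and conversely (every linear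
form on `K^m` is `∑ b i * y i`, e.g. `b i` its value at `Pi.single i 1`).  `ψ x j = ψ y j → C (e j) x = C (e j) y` is
`LinIn`.  Conversely: there is `g : K → Fin n` with `C (e j) x = g (ψ x j)` for all `x` (`ψ` is surjective);
`g` is surjective since `C (e j)` is (`(hC e he).2`), so injective since `|K| = n`. -/
def S_Coord : Prop := ∀ (K : Type) [Field K] [Fintype K] (m k : ℕ)
  (C : Fin k → (Fin m → Fin (Fintype.card K)) → Fin (Fintype.card K)),
  IsArray m (Fintype.card K) k C → ∀ (φ : (Fin m → Fin (Fintype.card K)) ≃ (Fin m → K))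
  (e : Fin m → Fin k), Function.Injective e → (∀ j, LinIn φ (C (e j))) →
  ∃ ψ : (Fin m → Fin (Fintype.card K)) ≃ (Fin m → K),
    (∀ D : (Fin m → Fin (Fintype.card K)) → Fin (Fintype.card K), LinIn φ D ↔ LinIn ψ D) ∧
    ∀ j x y, ψ x j = ψ y j ↔ C (e j) x = C (e j) y

/-- **Module MAIN**: the main theorem if the members `e j` are the coordinate functions.

Proof.  If `i ∈ R` nothing is to be shown; let `i ∉ R`, `F = C i ∘ φ.symm`, `i0 = 0` (`2 ≤ m`), and use
`S_Global` for `F`.
(a) If `F (update y j s) = F (update y j t)`, the two cells `φ.symm (...)` agree in `C (e l)`, `l ≠ j`, and in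
`C i`; these are `m` members, so the cells are equal (`IsArray.eq_of_agree`), so `s = t`.  (c) follows,
since `|K| = n`.
(b) Let `j ≠ i0`.  Let `ι = {r ∈ R | r ∉ {e l | l ≠ i0, j}}`, so `card ι ≥ |R| - (m - 2) ≥ N`.  For `r ∈ ι` let
`a r` be the coefficients of `C r`, `f r = (a r i0, a r j)`.  For cells `x = φ.symm (update (update y i0 s) j t)`
and `x'` with `s'`, `t'`, the forms `a r` differ by `dot (f r) (s, t) - dot (f r) (s', t')`; so if
`dot (f r) (s, t) = dot (f r) (s', t')` then `C r x = C r x'`.  Pairwise non-proportional: if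
`(f r).1 * (f r').2 = (f r).2 * (f r').1`, `r ≠ r'`, there is `(s, t) ≠ (0, 0)` with
`dot (f r) (s, t) = 0 = dot (f r') (s, t)`; with `s' = t' = 0` the two cells agree in the `m` members `e l`
(`l ≠ i0, j`), `r`, `r'`; contradiction.  In the same way the last hypothesis of `S_Plane` holds for
`F' (s, t) = F (update (update y i0 s) j t)` (the `m` members `e l` (`l ≠ i0, j`), `r`, `i`).  `S_Plane` gives `w`. -/
def S_Main : Prop := S_Plane → S_Global → ∀ (K : Type) [Field K] [Fintype K] (m k N : ℕ)
  (C : Fin k → (Fin m → Fin (Fintype.card K)) → Fin (Fintype.card K)), 2 ≤ m →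
  IsArray m (Fintype.card K) k C → ∀ (φ : (Fin m → Fin (Fintype.card K)) ≃ (Fin m → K))
  (e : Fin m → Fin k), Function.Injective e →
  (∀ j x y, φ x j = φ y j ↔ C (e j) x = C (e j) y) → LineProp K N → 1 ≤ N →
  ∀ R : Finset (Fin k), (∀ j, e j ∈ R) → (∀ i ∈ R, LinIn φ (C i)) → N + m ≤ R.card + 2 →
  ∀ i, LinIn φ (C i)

/-- **Module COR**: the linear case gives vectors every `m` of which are independent.

Proof.  Let `a i` be the coefficients of `C i`.  If `det (of fun l => a (f l)) = 0` for an injective
`f : Fin m → Fin k`, there is `v ≠ 0` with `∑ i, a (f l) i * v i = 0` for all `l`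
(`Matrix.exists_mulVec_eq_zero_iff`), so the cells `φ.symm v` and `φ.symm 0` agree in all `C (f l)`, so they are
equal by `IsArray` (`(hC f hf).1`), contradiction. -/
def S_Cor : Prop := ∀ (K : Type) [Field K] [Fintype K] (m k : ℕ)
  (C : Fin k → (Fin m → Fin (Fintype.card K)) → Fin (Fintype.card K)),
  IsArray m (Fintype.card K) k C → ∀ (φ : (Fin m → Fin (Fintype.card K)) ≃ (Fin m → K)),
  (∀ i, LinIn φ (C i)) → ∃ a : Fin k → Fin m → K,
    ∀ f : Fin m → Fin k, Function.Injective f → Matrix.det (Matrix.of fun i => a (f i)) ≠ 0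

end Pool.Agent.J6H84.LM
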