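import Pool.Agent.J6H84.LM.Stm

/-!
# Project LM: sharpness

A set with `(p - 1) / 2` linear members and one member which is not linear.
-/

set_option autoImplicit false

namespace Pool.Agent.J6H84.LM

open Finset

/-- the nonzero squares modulo `p` -/
abbrev Sq (p : ℕ) : Type := {t : ZMod p // t ≠ 0 ∧ IsSquare t}

/-- **Module SHARP.**

Proof.  Let `α y = (-1)^(m-1) * y 0`, `β y = y (m-1)` (first and last coordinate, `m ≥ 2`, so they are
different) and `D y = if IsSquare (α y - β y) then α y else β y`.
(1) Let `v : Fin m → ZMod p` with `α v * β v` a nonzero square, `y' = y + s v`, `D y = D y'`.  Then `s = 0`: if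
both `α y - β y`, `α y' - β y'` are squares then `α y = α y'`, `s * α v = 0`; if both are not, `s * β v = 0`.  If the
first is a square and the second not: `α y = β y' = β y + s * β v`, so `α y - β y = s * β v` is a square, and
`α y' - β y' = α y + s * α v - α y = s * α v` is not a square, so `s ≠ 0` and `s * α v = (s^2 * α v * β v) / (s * β v)` is
a square, contradiction.  The other case is symmetric.
(2) Bijective: the map goes from a finite set to itself, so it suffices that it is injective.  Let `y`, `y'`
have the same image, `d = y' - y`, `P = ∑ j, C (d j) * X^j`, a polynomial of degree `≤ m - 1`.  If `none` is not a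
value of `f` then `P` has `m` different roots `f i`, so `P = 0`, `d = 0`.  Otherwise let `T` be the set of the
`m - 1` nonzero squares `f i`, `i ≠ i₀`, `f i₀ = none`.  They are roots of `P`, so `P = C s * ∏ t ∈ T, (X - C t)` with
`s = d (m-1)` (compare: the difference has degree `< m - 1` and `m - 1` roots), and with `v` the coefficients of
`∏ t ∈ T, (X - C t)`: `v (m-1) = 1`, `v 0 = (-1)^(m-1) * ∏ T`, `α v * β v = ∏ T` is a nonzero square.  By (1) `s = 0`,
`d = 0`.
(3) Not linear: let `a` be as excluded.  There is `v ≠ 0` supported on the coordinates `0`, `m-1` with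
`∑ a i * v i = 0` (`v 0 = a (m-1)`, `v (m-1) = - a 0`, or `v 0 = 1` if both are `0`).  So `D (s v) = D 0 = 0` for all
`s`.  If `α v ≠ β v`: for `s = (α v - β v)⁻¹` we get `s * α v = 0`, so `α v = 0`; for `s = n * (α v - β v)⁻¹`, `n` a
nonsquare (exists since `p ≠ 2`), we get `s * β v = 0`, so `v = 0`.  If `α v = β v`: `D v = α v`, so `α v = 0`, `v = 0`. -/
def S_Sharp : Prop := ∀ (p : ℕ) [Fact p.Prime], p ≠ 2 → ∀ m : ℕ, 2 ≤ m →
  ∃ D : (Fin m → ZMod p) → ZMod p,
    (∀ f : Fin m → Option (Sq p), Function.Injective f →
      Function.Bijective (fun (y : Fin m → ZMod p) (i : Fin m) =>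
        (f i).elim (D y) (fun t => ∑ j : Fin m, t.1 ^ (j : ℕ) * y j))) ∧
    ¬ ∃ a : Fin m → ZMod p, ∀ y y', ∑ i, a i * y i = ∑ i, a i * y' i → D y = D y'

/-- **Module SQ.**  Proof.  `quadraticChar_sum_zero`, or: squaring maps the units two to one onto the
nonzero squares. -/
def S_Sq : Prop := ∀ (p : ℕ) [Fact p.Prime], p ≠ 2 → Nat.card (Sq p) = (p - 1) / 2

end Pool.Agent.J6H84.LM
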